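import Pool.Agent.X115.HS.Stm2

set_option autoImplicit false

namespace Pool.Agent.X48.HS

open Pool.Agent.X115.HS MeasureTheory Set Filter Topology

variable {n : ℕ}

lemma hin (c : ℝ) (x v : X n) (s : ℝ) :
    HasDerivAt (fun s : ℝ => c • (x + s • v)) (c • v) s := by
  have h1 : HasDerivAt (fun s : ℝ => s • v) v s := by
    simpa using (hasDerivAt_id s).smul_const v
  exact (h1.const_add x).const_smul c

lemma hline {F : Type} [NormedAddCommGroup F] [NormedSpace ℝ F] (f : X n → F)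
    (hf : Differentiable ℝ f) (c : ℝ) (x v : X n) (s : ℝ) :
    HasDerivAt (fun s : ℝ => f (c • (x + s • v))) (c • fderiv ℝ f (c • (x + s • v)) v) s := by
  have h2 := (hf (c • (x + s • v))).hasFDerivAt.comp_hasDerivAt s (hin c x v s)
  rw [map_smul] at h2
  exact h2

lemma bump (n : ℕ) : ∃ ψ : X n → ℝ, ContDiff ℝ ((⊤ : ℕ∞) : WithTop ℕ∞) ψ ∧
    HasCompactSupport ψ ∧ (∀ x, 0 ≤ ψ x ∧ ψ x ≤ 1) ∧ ∀ x, ‖x‖ ≤ 1 → ψ x = 1 := by
  let φ : ContDiffBump (0 : X n) := ⟨1, 2, one_pos, one_lt_two⟩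
  refine ⟨φ, φ.contDiff, φ.hasCompactSupport, fun x => ⟨φ.nonneg, φ.le_one⟩, fun x hx => ?_⟩
  apply φ.one_of_mem_closedBall
  rw [mem_closedBall_zero_iff]
  exact hx

lemma pd_scale (ψ : X n → ℝ) (hd : Differentiable ℝ ψ) (c : ℝ) (i : Fin n) (x : X n) :
    pd i (fun x => ψ (c • x)) x =
      c * fderiv ℝ ψ (c • x) (EuclideanSpace.single i (1 : ℝ)) := by
  have h := (hline ψ hd c x (EuclideanSpace.single i (1 : ℝ)) 0).deriv
  unfold pd
  rw [h, zero_smul, add_zero, smul_eq_mul]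

lemma d2_scale (ψ : X n → ℝ) (hd : Differentiable ℝ ψ) (hd1 : Differentiable ℝ (fderiv ℝ ψ))
    (c : ℝ) (i : Fin n) (x : X n) :
    d2 i (fun x => ψ (c • x)) x =
      c * (c * (fderiv ℝ (fderiv ℝ ψ) (c • x) (EuclideanSpace.single i (1 : ℝ)))
        (EuclideanSpace.single i (1 : ℝ))) := by
  generalize hv : (EuclideanSpace.single i (1 : ℝ) : X n) = v
  have h0 : (deriv fun s : ℝ => ψ (c • (x + s • v))) =
      fun s : ℝ => c * fderiv ℝ ψ (c • (x + s • v)) v := by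
    funext s
    exact (hline ψ hd c x v s).deriv
  have h := hline (fderiv ℝ ψ) hd1 c x v 0
  have h' : HasDerivAt (fun s : ℝ => fderiv ℝ ψ (c • (x + s • v)) v)
      ((c • fderiv ℝ (fderiv ℝ ψ) (c • (x + (0 : ℝ) • v)) v) v) 0 := by
    have h1 := h.clm_apply (hasDerivAt_const (0 : ℝ) v)
    rw [map_zero, add_zero] at h1
    exact h1
  have h2 := (h'.const_mul c).deriv
  unfold d2
  rw [hv, h0, h2, zero_smul, add_zero]
  rfl

lemma loc_one (χ : X n → ℝ) (k : ℝ) (h1 : ∀ x, ‖x‖ ≤ k → χ x = 1) (x : X n) (hx : ‖x‖ < k)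
    (i : Fin n) : pd i χ x = 0 ∧ d2 i χ x = 0 := by
  have hev : (fun s : ℝ => χ (x + s • EuclideanSpace.single i (1 : ℝ))) =ᶠ[𝓝 0]
      fun _ => (1 : ℝ) := by
    have hcont : Continuous fun s : ℝ => ‖x + s • (EuclideanSpace.single i (1 : ℝ) : X n)‖ :=
      (continuous_const.add (continuous_id.smul continuous_const)).norm
    have h0 : ‖x + (0 : ℝ) • (EuclideanSpace.single i (1 : ℝ) : X n)‖ < k := by
      rw [zero_smul, add_zero]
      exact hx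
    have h2 := hcont.continuousAt.eventually_lt_const h0
    filter_upwards [h2] with s hs
    exact h1 _ hs.le
  constructor
  · unfold pd
    rw [hev.deriv_eq, deriv_const]
  · unfold d2
    rw [hev.deriv.deriv_eq]
    simp

lemma le1 : (((⊤ : ℕ∞) : WithTop ℕ∞) + 1) ≤ ((⊤ : ℕ∞) : WithTop ℕ∞) := le_refl _

theorem c1 {F : Type} [NormedAddCommGroup F] [NormedSpace ℝ F] (ψ : X n → F) (hψ : ContDiff ℝ ((⊤ : ℕ∞) : WithTop ℕ∞) ψ) : ContDiff ℝ ((⊤ : ℕ∞) : WithTop ℕ∞) (fderiv ℝ ψ) :=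
    hψ.fderiv_right le1
theorem c2 {F : Type} [NormedAddCommGroup F] [NormedSpace ℝ F] (ψ : X n → F) (hψ : HasCompactSupport ψ) : HasCompactSupport (fderiv ℝ ψ) := hψ.fderiv ℝ
theorem c3 {F : Type} [NormedAddCommGroup F] [NormedSpace ℝ F] (ψ : X n → F) (hψ : ContDiff ℝ ((⊤ : ℕ∞) : WithTop ℕ∞) ψ) : Differentiable ℝ ψ := hψ.differentiable (by simp)
theorem c4 {F : Type} [NormedAddCommGroup F] [NormedSpace ℝ F] (ψ : X n → F) (hψ : Continuous ψ) (hc : HasCompactSupport ψ) : ∃ C, ∀ x, ‖ψ x‖ ≤ C :=  hψ.bounded_above_of_compact_support hc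
theorem c5 {F : Type} [NormedAddCommGroup F] [NormedSpace ℝ F] (ψ : X n → F) (hψ : ContDiff ℝ ((⊤ : ℕ∞) : WithTop ℕ∞) ψ) (hc : HasCompactSupport ψ) : ContDiff ℝ ((⊤ : ℕ∞) : WithTop ℕ∞) (fderiv ℝ ψ) ∧ HasCompactSupport (fderiv ℝ ψ) ∧ Differentiable ℝ ψ ∧ ∃ C, ∀ x, ‖ψ x‖ ≤ C := ⟨c1 ψ hψ, c2 ψ hc, c3 ψ hψ, c4 ψ hψ.continuous hc⟩
theorem c6 (ψ : X n → ℝ) (hψ : ContDiff ℝ ((⊤ : ℕ∞) : WithTop ℕ∞) ψ) (hc : HasCompactSupport ψ) : ∃ C1 C2 : ℝ, Differentiable ℝ ψ ∧ Differentiable ℝ (fderiv ℝ ψ) ∧ (∀ x, ‖fderiv ℝ ψ x‖ ≤ C1) ∧ (∀ x, ‖fderiv ℝ (fderiv ℝ ψ) x‖ ≤ C2) := by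
  obtain ⟨h1, h2, h3, h4⟩ := c5 ψ hψ hc
  obtain ⟨h5, h6, h7, C1, h8⟩ := c5 _ h1 h2
  obtain ⟨h9, h10, h11, C2, h12⟩ := c5 _ h5 h6
  exact ⟨C1, C2, h3, h7, h8, h12⟩

theorem t_CUT : S_CUT := by
  intro n
  obtain ⟨ψ, hψ, hc, h01, hψone⟩ := bump n
  obtain ⟨C1, C2, hd0, hd1, hC1, hC2⟩ := c6 ψ hψ hc
  have key : ∀ k : ℕ, ∃ c : ℝ, 0 < c ∧ c ≤ 1 ∧ ∀ x : X n, ‖x‖ ≤ k → ‖c • x‖ ≤ 1 := by
    intro k
    have hk1 : (0 : ℝ) < (k : ℝ) + 1 := by positivity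
    have hc0 : (0 : ℝ) < 1 / ((k : ℝ) + 1) := by positivity
    refine ⟨1 / ((k : ℝ) + 1), hc0, ?_, ?_⟩
    · rw [div_le_one hk1]
      linarith [(Nat.cast_nonneg k : (0 : ℝ) ≤ k)]
    · intro x hx
      rw [norm_smul, Real.norm_of_nonneg hc0.le, one_div, inv_mul_le_iff₀ hk1]
      linarith
  choose c hc0 hcle hcx using key
  refine ⟨fun k x => ψ (c k • x), max C1 C2, fun k => ?_⟩
  have hsing : ∀ i : Fin n, ‖(EuclideanSpace.single i (1 : ℝ) : X n)‖ = 1 := fun i => by simp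
  have hone : ∀ x : X n, ‖x‖ ≤ k → ψ (c k • x) = 1 := fun x hx => hψone _ (hcx k x hx)
  refine ⟨hψ.comp (contDiff_const_smul (c k)), hc.comp_smul (hc0 k).ne', fun x => h01 _, hone,
    ?_, fun x hx i => loc_one (fun x => ψ (c k • x)) k hone x hx i⟩
  intro x i
  constructor
  · rw [pd_scale ψ hd0, abs_mul, abs_of_pos (hc0 k)]
    have h1 : |fderiv ℝ ψ (c k • x) (EuclideanSpace.single i (1 : ℝ))| ≤ C1 := by
      have h2 := (fderiv ℝ ψ (c k • x)).le_opNorm (EuclideanSpace.single i (1 : ℝ))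
      rw [hsing, mul_one] at h2
      exact h2.trans (hC1 _)
    have h3 := mul_le_mul (hcle k) h1 (abs_nonneg _) zero_le_one
    rw [one_mul] at h3
    exact h3.trans (le_max_left _ _)
  · rw [d2_scale ψ hd0 hd1, abs_mul, abs_mul, abs_of_pos (hc0 k)]
    have h1 : |(fderiv ℝ (fderiv ℝ ψ) (c k • x) (EuclideanSpace.single i (1 : ℝ)))
        (EuclideanSpace.single i (1 : ℝ))| ≤ C2 := by
      have h2 := (fderiv ℝ (fderiv ℝ ψ) (c k • x)).le_opNorm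
        (EuclideanSpace.single i (1 : ℝ))
      have h4 := (fderiv ℝ (fderiv ℝ ψ) (c k • x)
        (EuclideanSpace.single i (1 : ℝ))).le_opNorm (EuclideanSpace.single i (1 : ℝ))
      rw [hsing, mul_one] at h2 h4
      exact h4.trans (h2.trans (hC2 _))
    have h3 : 0 ≤ C2 := (abs_nonneg _).trans h1
    have h5 := mul_le_mul (hcle k) h1 (abs_nonneg _) zero_le_one
    have h6 := mul_le_mul (hcle k) h5 (mul_nonneg (hc0 k).le (abs_nonneg _)) zero_le_one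
    rw [one_mul, one_mul] at h6
    exact h6.trans (le_max_right _ _)

end Pool.Agent.X48.HS
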